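import Pool.Agent.N162.GP.Stm2

/-!
The varieties of the project GP.
-/

set_option autoImplicit false

open MvPolynomial Pool.Agent.N162.BC

namespace Pool.Agent.N162.GP

/-- `K` is the function field of a variety `V` of dimension `n` in projective `(M + 1)`-space, `x` is
its generic point, `x 0 = 1`. In the chart `x 0 ≠ 0` the variety is cut out (as a set) by equations of
degree at most `D`, and there is a nonzero rational canonical form `ω₀` on `V` such that `P(x) ω₀` is a
global section of the canonical bundle of the smooth projective models of `V` for all forms `P` of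
degree `m`. (If `V` is smooth: `K_V = m H + E` for the hyperplane section `H` and an effective
divisor `E`.) -/
structure LowDegree {M : ℕ} {K : Type} [Field K] [Algebra ℂ K] (n m D : ℕ)
    (x : Fin (M + 2) → K) : Prop where
  one : x 0 = 1
  gen : IntermediateField.adjoin ℂ (Set.range x) = ⊤
  dim : Algebra.trdeg ℂ K = n
  cut : CutBy D x
  forms : ∃ ω₀ : (Fin n → Derivation ℂ K K) → K, Adj m n x ω₀

/-- smooth complete intersections -/
theorem lowDegree_of_smoothCI (hCIC : StCIC) (hCIA : StCIA) {M n c m D : ℕ} {K : Type} [Field K]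
    [Algebra ℂ K] {F : Fin c → MvPolynomial (Fin (M + 2)) ℂ} {d : Fin c → ℕ}
    {x : Fin (M + 2) → K} (h : SmoothCI F d x) (hn : 1 ≤ n) (hK : Algebra.trdeg ℂ K = n)
    (hc : n + c = M + 1) (hm : m + M + 2 = ∑ i, d i) (hD : ∀ i, d i ≤ D) (hD1 : 1 ≤ D) :
    LowDegree n m D x :=
  ⟨h.one, h.gen, hK, hCIC M c D K F d x h hD hD1, hCIA M n c m K F d x h hn hK hc hm⟩

end Pool.Agent.N162.GP
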