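import Pool.Agent.N162.HN.Stm
import Pool.Agent.Y184.NT.StD

/-!
# Project GP: varieties which are cut out by equations of low degree and whose canonical system
contains the forms of high degree (for instance smooth complete intersections of codimension at least
two)

Statements of the parts. The variety `V` of dimension `n` with the function field `K` is contained in
projective `(M + 1)`-space, with the generic point `x`, `x 0 = 1`. `ω₀` is a canonical form on `V` such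
that `P(x) ω₀` is regular for all forms `P` of degree `m`.
-/

set_option autoImplicit false

open FF Pool.Agent.W603.LV Pool.Agent.Y184.NT Pool.Agent.N162.BC IntermediateField MvPolynomial
open Pool.Agent.W602.GT
open Pool.Agent.N162.CV (PRel MonicY)
open Pool.Agent.N162.HN (Crv Good At mu pr act pt Prj)

namespace Pool.Agent.N162.GP

section

variable {M : ℕ} {K : Type} [Field K] [Algebra ℂ K]

/-- `V` is cut out in the chart `x 0 ≠ 0` by equations of degree at most `D`. -/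
def CutBy (D : ℕ) (x : Fin (M + 2) → K) : Prop :=
  ∀ P : MvPolynomial (Fin (M + 2)) ℂ, aeval x P = 0 →
    P ∈ (Ideal.span {Q : MvPolynomial (Fin (M + 2)) ℂ | Q.totalDegree ≤ D ∧ aeval x Q = 0}).radical

/-- The forms `P(x) ω₀` are regular canonical forms for all forms `P` of degree `m`. -/
structure Adj (m n : ℕ) (x : Fin (M + 2) → K) (ω₀ : (Fin n → Derivation ℂ K K) → K) : Prop where
  pl : IsPluri 1 ω₀
  ne : ∃ D, ω₀ D ≠ 0
  reg : ∀ P : MvPolynomial (Fin (M + 2)) ℂ, P.IsHomogeneous m →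
    GlobalForm n (fun D => aeval x P * ω₀ D)

/-- The components of the curve `A l (x, z l) = 0` and their projections (the output of `StCUR`). -/
structure Cyl {Ω : Type} [Field Ω] (A : Fin M → MvPolynomial (Fin 2) Ω) {r : ℕ}
    (C : Fin r → Crv M Ω) : Prop where
  eqn : ∀ i l, aeval ![(C i).X 1, (C i).X l.succ.succ] (A l) = 0
  cov : ∀ p : Fin (M + 2) → Ω, p 0 = 1 → (∀ l : Fin M, eval ![p 1, p l.succ.succ] (A l) = 0) →
    ∃ i, (C i).On p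
  dist : ∀ i j, i ≠ j → ∃ P : MvPolynomial (Fin (M + 2)) Ω, aeval (C i).X P = 0 ∧
    aeval (C j).X P ≠ 0
  proj : ∀ Γ : Finset (Fin (M + 2) → Ω), (∀ p ∈ Γ, p 0 = 1) → ∃ bad : Finset Ω, ∀ t : Ω, t ∉ bad →
    ∃ G : Fin r → MvPolynomial (Fin 2) Ω,
      (∀ i, Irreducible (G i) ∧ MonicY (G i) ∧ (G i).totalDegree = (C i).deg ∧
        aeval (pr (algebraMap Ω (C i).E t) (C i).X) (G i) = 0) ∧
      (∀ i j, i ≠ j → ¬ Associated (G i) (G j)) ∧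
      ∀ i, ∀ p ∈ Γ, eval (pr t p) (G i) = 0 → (C i).On p

end

/-- GP/PRJ: good projections. -/
def StPRJ : Prop := ∀ (M r : ℕ) (Ω : Type) [Field Ω] [IsAlgClosed Ω] [CharZero Ω]
  (A : Fin M → MvPolynomial (Fin 2) Ω) (C : Fin r → Crv M Ω), 1 ≤ M →
  (∀ l, MonicY (A l) ∧ 1 ≤ (A l).totalDegree) → Cyl A C →
  ∀ Γ : Finset (Fin (M + 2) → Ω), (∀ p ∈ Γ, p 0 = 1) →
  ∃ (t : Ω) (G : Fin r → MvPolynomial (Fin 2) Ω),
    Prj Γ (fun i => (C i).deg) (fun i p => (C i).On p) A t G ∧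
    Set.InjOn (pr (n := M) t) (Γ : Set (Fin (M + 2) → Ω))

/-- GP/GM: the combinatorial part: there is a curve of low degree with many points. -/
def StGM : Prop := ∀ (M m N r : ℕ) (Ω : Type) [Field Ω] [IsAlgClosed Ω] [CharZero Ω]
  (S : Finset (Fin (M + 2) → Ω)) (lam : (Fin (M + 2) → Ω) → Ω) (g : Fin r → ℕ)
  (on : Fin r → (Fin (M + 2) → Ω) → Prop) (A : Fin M → MvPolynomial (Fin 2) Ω) (t : Ω)
  (G : Fin r → MvPolynomial (Fin 2) Ω), 1 ≤ M → 7 * N + 4 ≤ m → (M + 1) * N < m + M + 2 →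
  S.Nonempty → S.card < (N + 1) * (m + 2 - N) → (∀ p ∈ S, p 0 = 1 ∧ lam p ≠ 0) →
  (∀ P : MvPolynomial (Fin (M + 2)) Ω, P.IsHomogeneous m → ∑ p ∈ S, lam p * eval p P = 0) →
  (∀ l, MonicY (A l) ∧ 1 ≤ (A l).totalDegree ∧ (A l).totalDegree ≤ N ∧
    ∀ p ∈ S, eval ![p 1, p l.succ.succ] (A l) = 0) →
  Prj S g on A t G → Set.InjOn (pr (n := M) t) (S : Set (Fin (M + 2) → Ω)) →
  ∃ (i : Fin r) (T : Finset (Fin (M + 2) → Ω)), T ⊆ S ∧ T.Nonempty ∧ (∀ p ∈ T, on i p) ∧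
    g i ≤ N ∧ g i * (m + 3 - N) ≤ T.card

/-- GP/GC: a curve with many generic points of `V` is contained in `V`. -/
def StGC : Prop := ∀ (M D : ℕ) (K Ω : Type) [Field K] [Algebra ℂ K] [Field Ω] [Algebra ℂ Ω]
  [IsAlgClosed Ω] (x : Fin (M + 2) → K), x 0 = 1 →
  IntermediateField.adjoin ℂ (Set.range x) = ⊤ → CutBy D x → ∀ (C : Crv M Ω)
  (T : Finset (Fin (M + 2) → Ω)), (∀ p ∈ T, C.On p ∧ ∃ σ : K →ₐ[ℂ] Ω, p = pt x σ) →
  C.deg * D < T.card → ∃ φ : K →+* C.E,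
    (∀ z : ℂ, φ (algebraMap ℂ K z) = algebraMap Ω C.E (algebraMap ℂ Ω z)) ∧
    ∀ j, φ (x j) = C.X j

/-- GP/GEP: the local computation. -/
def StGEP : Prop := ∀ (n t : ℕ) (K Ω E : Type) [Field K] [Algebra ℂ K] [Algebra.EssFiniteType ℂ K]
  [Field Ω] [Algebra ℂ Ω] [Field E] [Algebra ℂ E] [Algebra Ω E] [IsScalarTower ℂ Ω E]
  [IsAlgClosed Ω] [IsFF Ω E], Algebra.trdeg ℂ K = n → Algebra.trdeg ℂ Ω = t →
  ∀ (z : Fin n → K) (e : Fin n → Derivation ℂ K K), IsTranscendenceBasis ℂ z →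
  (∀ i j, e i (z j) = if i = j then 1 else 0) → ∀ η : (Fin n → Derivation ℂ K K) → K,
  GlobalForm n η → ∀ (φ : K →ₐ[ℂ] E) (v : Place Ω E) (τ : E), 0 < v.ord τ →
  ∀ (i₀ : Fin n) (δ : Fin n → Derivation ℂ E E),
    (∀ a : Ω, δ i₀ (algebraMap Ω E a) = 0) → δ i₀ τ = 1 →
    (∀ i, i ≠ i₀ → δ i τ = 0 ∧
      ∃ D : Derivation ℂ Ω Ω, ∀ a, δ i (algebraMap Ω E a) = algebraMap Ω E (D a)) →
  Ge v 1 (τ * ((Matrix.of fun i j => δ i (φ (z j))).det * φ (η e)))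

/-- GP/GET: a differential form with many vanishing traces is zero. -/
def StGET : Prop := ∀ (M m : ℕ) (Ω E : Type) [Field Ω] [Field E] [Algebra Ω E] [IsAlgClosed Ω]
  [CharZero Ω] [IsFF Ω E] (X : Fin (M + 2) → E), Good Ω X → Module.finrank Ω⟮X 1⟯ E ≤ m + 1 →
  ∀ h : E, (∀ (v : Place Ω E) (a : Ω), Ge v 1 (X 1 - algebraMap Ω E a) →
    Ge v 1 ((X 1 - algebraMap Ω E a) * h)) →
  (∀ v : Place Ω E, v.ord (X 1) < 0 → Ge v 1 (X 1 ^ (m + 1) * h)) → h = 0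

/-- GP/GE: the canonical forms vanish on curves of low degree. -/
def StGE : Prop := ∀ (M n m t : ℕ) (K Ω E : Type) [Field K] [Algebra ℂ K] [Field Ω] [Algebra ℂ Ω]
  [Field E] [Algebra ℂ E] [Algebra Ω E] [IsScalarTower ℂ Ω E] [IsAlgClosed Ω] [IsFF Ω E]
  (x : Fin (M + 2) → K) (ω₀ : (Fin n → Derivation ℂ K K) → K), x 0 = 1 →
  IntermediateField.adjoin ℂ (Set.range x) = ⊤ → Algebra.trdeg ℂ K = n →
  Algebra.trdeg ℂ Ω = t → Adj m n x ω₀ → ∀ φ : K →ₐ[ℂ] E, Good Ω (fun j => φ (x j)) →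
  Module.finrank Ω⟮φ (x 1)⟯ E ≤ m + 1 →
  ∀ (z : Fin n → K) (e : Fin n → Derivation ℂ K K), IsTranscendenceBasis ℂ z →
  (∀ i j, e i (z j) = if i = j then 1 else 0) → ∀ (i₀ : Fin n) (δ : Fin n → Derivation ℂ E E),
    (∀ a : Ω, δ i₀ (algebraMap Ω E a) = 0) → δ i₀ (φ (x 1)) = 1 →
    (∀ i, i ≠ i₀ → δ i (φ (x 1)) = 0 ∧
      ∃ D : Derivation ℂ Ω Ω, ∀ a, δ i (algebraMap Ω E a) = algebraMap Ω E (D a)) →
  (Matrix.of fun i j => δ i (φ (z j))).det * φ (ω₀ e) = 0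

/-- GP/GL: existence of derivations with a nonzero determinant. -/
def StGL : Prop := ∀ (n t : ℕ) (K Ω E : Type) [Field K] [Algebra ℂ K] [Field Ω] [Algebra ℂ Ω]
  [Field E] [Algebra ℂ E] [Algebra Ω E] [IsScalarTower ℂ Ω E] [IsAlgClosed Ω] [IsFF Ω E],
  Algebra.trdeg ℂ K = n → Algebra.trdeg ℂ Ω = t → ∀ (φ : K →ₐ[ℂ] E) (y : K),
  Transcendental Ω (φ y) → ∀ z : Fin n → K, IsTranscendenceBasis ℂ z →
  ∃ (i₀ : Fin n) (δ : Fin n → Derivation ℂ E E),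
    (∀ a : Ω, δ i₀ (algebraMap Ω E a) = 0) ∧ δ i₀ (φ y) = 1 ∧
    (∀ i, i ≠ i₀ → δ i (φ y) = 0 ∧
      ∃ D : Derivation ℂ Ω Ω, ∀ a, δ i (algebraMap Ω E a) = algebraMap Ω E (D a)) ∧
    (Matrix.of fun i j => δ i (φ (z j))).det ≠ 0

/-- GP/CRD: linear changes of the coordinates. -/
def StCRD : Prop := ∀ (M n m D : ℕ) (K : Type) [Field K] [Algebra ℂ K] (x : Fin (M + 2) → K)
  (ω₀ : (Fin n → Derivation ℂ K K) → K) (A A' : Matrix (Fin (M + 2)) (Fin (M + 2)) ℚ),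
  A * A' = 1 → A' * A = 1 → CutBy D x → Adj m n x ω₀ → CutBy D (act A x) ∧ Adj m n (act A x) ω₀

/-- GP/IND: few generic points impose independent conditions on the forms of degree `m`; fields of
finite transcendence degree. -/
def StIND : Prop := ∀ (M n m N D t : ℕ) (K Ω : Type) [Field K] [Algebra ℂ K] [Field Ω]
  [Algebra ℂ Ω] [IsAlgClosed Ω] (x : Fin (M + 2) → K) (ω₀ : (Fin n → Derivation ℂ K K) → K),
  1 ≤ M → 7 * N + 4 ≤ m → (M + 1) * N < m + M + 2 → D + N ≤ m + 2 → x 0 = 1 →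
  IntermediateField.adjoin ℂ (Set.range x) = ⊤ → Algebra.trdeg ℂ K = n →
  Algebra.trdeg ℂ Ω = t → CutBy D x → Adj m n x ω₀ →
  ∀ (S : Finset (K →ₐ[ℂ] Ω)) (lam : (K →ₐ[ℂ] Ω) → Ω), S.Nonempty → (∀ σ ∈ S, lam σ ≠ 0) →
  S.card < (N + 1) * (m + 2 - N) →
  ¬ ∀ P : MvPolynomial (Fin (M + 2)) ℂ, P.IsHomogeneous m → ∑ σ ∈ S, lam σ * σ (aeval x P) = 0

/-- GP/INX: the same for all algebraically closed fields. -/
def StINX : Prop := ∀ (M n m N D : ℕ) (K Ω : Type) [Field K] [Algebra ℂ K] [Field Ω]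
  [Algebra ℂ Ω] [IsAlgClosed Ω] (x : Fin (M + 2) → K) (ω₀ : (Fin n → Derivation ℂ K K) → K),
  1 ≤ M → 7 * N + 4 ≤ m → (M + 1) * N < m + M + 2 → D + N ≤ m + 2 → x 0 = 1 →
  IntermediateField.adjoin ℂ (Set.range x) = ⊤ → Algebra.trdeg ℂ K = n → CutBy D x →
  Adj m n x ω₀ → ∀ (S : Finset (K →ₐ[ℂ] Ω)) (lam : (K →ₐ[ℂ] Ω) → Ω), S.Nonempty →
  (∀ σ ∈ S, lam σ ≠ 0) → S.card < (N + 1) * (m + 2 - N) →
  ¬ ∀ P : MvPolynomial (Fin (M + 2)) ℂ, P.IsHomogeneous m → ∑ σ ∈ S, lam σ * σ (aeval x P) = 0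

/-- GP/NTW: the relations given by a null trace. -/
def StNTW : Prop := ∀ (n t : ℕ) (K Ω : Type) [Field K] [Algebra ℂ K] [Algebra.EssFiniteType ℂ K]
  [Field Ω] [Algebra ℂ Ω] [IsAlgClosed Ω], Algebra.trdeg ℂ K = n → Algebra.trdeg ℂ Ω = t →
  ∀ ω₀ : (Fin n → Derivation ℂ K K) → K, IsPluri 1 ω₀ → (∃ D, ω₀ D ≠ 0) →
  ∀ f : (K →ₐ[ℂ] Ω) →₀ ℤ, NullTrace n f → ∃ κ : (K →ₐ[ℂ] Ω) → Ω,
    (∀ σ ∈ f.support, κ σ ≠ 0) ∧ ∀ b : K, GlobalForm n (fun D => b * ω₀ D) →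
      ∑ σ ∈ f.support, (f σ : Ω) * κ σ * σ b = 0

/-- GP/TRF: the traces of the regular forms of `V`. -/
def StTRF : Prop := ∀ (n : ℕ) (L K K' : Type) [Field L] [Algebra ℂ L] [Algebra.EssFiniteType ℂ L]
  [Field K] [Algebra ℂ K] [Algebra.EssFiniteType ℂ K] [Field K'] [Algebra ℂ K'] [Algebra K K']
  [IsScalarTower ℂ K K'] [Algebra L K'] [IsScalarTower ℂ L K'] [FiniteDimensional L K']
  [Algebra.IsAlgebraic K K'], Algebra.trdeg ℂ K = n →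
  ∀ ω₀ : (Fin n → Derivation ℂ K K) → K, IsPluri 1 ω₀ → (∃ D, ω₀ D ≠ 0) →
  ∃ (u : K') (ω : (Fin n → Derivation ℂ L L) → L), u ≠ 0 ∧
    u ∈ IntermediateField.adjoin L (Set.range (algebraMap K K')) ∧ IsPluri 1 ω ∧
    (∃ D, ω D ≠ 0) ∧ ∀ b : K, GlobalForm n (fun D => b * ω₀ D) →
      GlobalForm n (fun D => Algebra.trace L K' (algebraMap K K' b * u) * ω D)

/-- GP/TRS: the trace as a sum over the points of a fibre. -/
def StTRS : Prop := ∀ (L K K' Ω : Type) [Field L] [CharZero L] [Field K] [Algebra ℂ K] [Field K']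
  [Algebra K K'] [Algebra L K'] [FiniteDimensional L K'] [Algebra ℂ L] [Algebra ℂ K']
  [IsScalarTower ℂ K K'] [IsScalarTower ℂ L K'] [Field Ω] [Algebra ℂ Ω] [IsAlgClosed Ω] (u : K'),
  u ≠ 0 → u ∈ IntermediateField.adjoin L (Set.range (algebraMap K K')) → ∀ σ : L →ₐ[ℂ] Ω,
  ∃ (S : Finset (K →ₐ[ℂ] Ω)) (κ : (K →ₐ[ℂ] Ω) → Ω), S.Nonempty ∧
    S.card ≤ Module.finrank L K' ∧ (∀ ρ ∈ S, κ ρ ≠ 0 ∧ ∃ σ' : K' →ₐ[ℂ] Ω,
      (∀ a, σ' (algebraMap L K' a) = σ a) ∧ ∀ b, σ' (algebraMap K K' b) = ρ b) ∧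
    ∀ b : K, σ (Algebra.trace L K' (algebraMap K K' b * u)) = ∑ ρ ∈ S, κ ρ * ρ b

/-- GP/GPR: a generic pair of embeddings. -/
def StGPR : Prop := ∀ (L : Type) [Field L] [Algebra ℂ L] (N₀ : IntermediateField ℂ L) (n : ℕ),
  Algebra.trdeg ℂ L = n → ¬ Algebra.IsAlgebraic N₀ L → ∃ (Ω : Type) (_ : Field Ω)
    (_ : Algebra ℂ Ω) (_ : IsAlgClosed Ω) (σ τ : L →ₐ[ℂ] Ω), (∀ a ∈ N₀, σ a = τ a) ∧
    ∀ (K : Type) [Field K] [Algebra ℂ K], Algebra.trdeg ℂ K = n → ∀ ρ : K →ₐ[ℂ] Ω,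
      (∀ b, IsAlgebraic σ.fieldRange (ρ b)) → ¬ ∀ b, IsAlgebraic τ.fieldRange (ρ b)

/-- GP/PAI: a second embedding of a field over a proper subfield. -/
def StPAI : Prop := ∀ (L : Type) [Field L] [Algebra ℂ L] (N₀ : IntermediateField ℂ L), N₀ ≠ ⊤ →
  ∃ (Ω : Type) (_ : Field Ω) (_ : Algebra ℂ Ω) (_ : IsAlgClosed Ω) (σ τ : L →ₐ[ℂ] Ω),
    (∀ a ∈ N₀, σ a = τ a) ∧ σ ≠ τ

/-- GP/GTY: general type, if the ratios of the canonical forms have the right transcendence degree. -/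
def StGTY : Prop := ∀ (n : ℕ) (L : Type) [Field L] [Algebra ℂ L] (ι : Type) (T : ι → L) (i₀ : ι)
  (ω : (Fin n → Derivation ℂ L L) → L), Algebra.trdeg ℂ L = n → IsPluri 1 ω → (∃ D, ω D ≠ 0) →
  T i₀ ≠ 0 → (∀ i, GlobalForm n (fun D => T i * ω D)) →
  Algebra.IsAlgebraic (IntermediateField.adjoin ℂ (Set.range fun i => T i / T i₀)) L →
  GeneralType ℂ L n

end Pool.Agent.N162.GP
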