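import Pool.Agent.N162.GP.Final
import Pool.Agent.N162.HN.Facts
import Pool.Agent.N2.GP.PRJ
import Pool.Agent.N11.GP.GM
import Pool.Agent.N340.GP.GC
import Pool.Agent.N774.GP.Gep
import Pool.Agent.N823.GP.Get
import Pool.Agent.N152.GP.GE
import Pool.Agent.N383.GP.GL
import Pool.Agent.N252.GP.CRD
import Pool.Agent.N339.GP.Inx
import Pool.Agent.N645.GP.NTW
import Pool.Agent.N619.GP.TRF
import Pool.Agent.N271.GP.GPR
import Pool.Agent.N487.GP.GTY
import Pool.Agent.N273.GP.TRS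
import Pool.Agent.N681.GP.Cic
import Pool.Agent.N364.GP.CIA
import Pool.Agent.N401.GP.TNF
import Pool.Agent.Y297.NT.Pull
import Pool.Agent.Y71.NT.Abh

/-!
The parts of the project GP.
-/

set_option autoImplicit false

namespace Pool.Agent.N162.GP

theorem fPull : Pool.Agent.Y184.NT.StPull := Pool.Agent.Y297.NT.t_Pull Pool.Agent.Y71.NT.t_abh
theorem fPRJ : StPRJ := Pool.Agent.N2.GP.prj_ HN.fC1 CV.fALG
theorem fGM : StGM := Pool.Agent.N11.GP.gm_ CW.fA2 HN.fSP CV.fA3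
theorem fGC : StGC := Pool.Agent.N340.GP.gc_ HN.fC1
theorem fGEP : StGEP := Pool.Agent.N774.GP.gep_ CV.fDERa CV.fDERb fPull
theorem fGET : StGET := Pool.Agent.N823.GP.get_ CV.fRES
theorem fGE : StGE := Pool.Agent.N152.GP.ge_ fGEP fGET
theorem fGL : StGL := Pool.Agent.N383.GP.gl_ CV.fDERc
theorem fCRD : StCRD := Pool.Agent.N252.GP.crd_
theorem fIND : StIND := ind_ HN.fB1 HN.fCUR fPRJ fGM fGC fGE fGL fCRD
theorem fINX : StINX := Pool.Agent.N339.GP.inx_ fIND
theorem fNTW : StNTW := Pool.Agent.N645.GP.ntw_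
theorem fTRF : StTRF := Pool.Agent.N619.GP.trf_ fPull
theorem fGPR : StGPR := Pool.Agent.N271.GP.gpr_
theorem fPAI : StPAI := Pool.Agent.N271.GP.pai_
theorem fGTY : StGTY := Pool.Agent.N487.GP.gty_
theorem fTRS : StTRS := Pool.Agent.N273.GP.trs_
theorem fCIC : StCIC := Pool.Agent.N681.GP.cic_
theorem fCIA : StCIA := Pool.Agent.N364.GP.cia_
theorem fTNF : StTNF := Pool.Agent.N401.GP.tnf_ fPull

end Pool.Agent.N162.GP
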