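import Pool.Agent.N162.GP.Stm2

/-!
# Project GP, third part: independent embeddings
-/

set_option autoImplicit false

namespace Pool.Agent.N162.GP

/-- GP/KGP: `k` independent embeddings of a field. -/
def StKGP : Prop := ∀ (w k : ℕ) (L : Type) [Field L] [Algebra ℂ L], Algebra.trdeg ℂ L = w →
  ∃ (Ω : Type) (_ : Field Ω) (_ : Algebra ℂ Ω) (_ : IsAlgClosed Ω) (σ : Fin k → (L →ₐ[ℂ] Ω)),
    ∀ i j, i ≠ j → ∀ a : Ω, IsAlgebraic (σ i).fieldRange a → IsAlgebraic (σ j).fieldRange a →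
      ∃ z : ℂ, a = algebraMap ℂ Ω z

end Pool.Agent.N162.GP
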