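import Pool.Agent.N162.GP.Facts
import Pool.Agent.N162.GP.Stm3
import Pool.Agent.N403.GP.KGP

/-!
The part `StKGP` of the project GP.
-/

set_option autoImplicit false

namespace Pool.Agent.N162.GP

theorem fKGP : StKGP := Pool.Agent.N403.GP.kgp_

end Pool.Agent.N162.GP
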