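import Pool.Agent.N162.GP.Main

/-!
Project GP: the theorems on zero-cycles and on the varieties dominated by coverings of `V`.
-/

set_option autoImplicit false
set_option linter.unusedSectionVars false

open FF Pool.Agent.W603.LV Pool.Agent.Y184.NT Pool.Agent.N162.BC IntermediateField MvPolynomial
open Pool.Agent.W602.GT
open Pool.Agent.N162.HN (pt)

namespace Pool.Agent.N162.GP

/-- finitely generated -/
theorem ess_of_gen {ι K : Type} [Finite ι] [Field K] [Algebra ℂ K] {x : ι → K}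
    (h : IntermediateField.adjoin ℂ (Set.range x) = ⊤) : Algebra.EssFiniteType ℂ K := by
  have h1 : (⊤ : IntermediateField ℂ K).FG := by
    rw [← h]
    exact IntermediateField.fg_adjoin_of_finite (Set.finite_range x)
  exact IntermediateField.fg_top_iff.1 h1

theorem trdeg_alg (F A B : Type) [Field F] [Field A] [Field B] [Algebra F A] [Algebra F B]
    [Algebra A B] [IsScalarTower F A B] [Algebra.IsAlgebraic A B] :
    Algebra.trdeg F A = Algebra.trdeg F B := by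
  have h1 := trdeg_add_eq F A (A := B)
  have h2 : Algebra.trdeg A B = 0 := by
    rw [trdeg_eq_zero_iff]
    infer_instance
  rw [h2, add_zero] at h1
  exact h1

section

variable {M n m N D : ℕ} {K : Type} [Field K] [Algebra ℂ K] {x : Fin (M + 2) → K}
  {ω₀ : (Fin n → Derivation ℂ K K) → K} (hINX : StINX) (hM : 1 ≤ M) (hm : 7 * N + 4 ≤ m)
  (hN : (M + 1) * N < m + M + 2) (hD : D + N ≤ m + 2) (hx0 : x 0 = 1)
  (hgen : IntermediateField.adjoin ℂ (Set.range x) = ⊤) (hK : Algebra.trdeg ℂ K = n)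
  (hcut : CutBy D x) (hadj : Adj m n x ω₀)

include hINX hM hm hN hD hx0 hgen hK hcut hadj

/-- cycles with null trace and few points are zero -/
theorem null_zero (hNTW : StNTW) {t : ℕ} {Ω : Type} [Field Ω] [Algebra ℂ Ω] [IsAlgClosed Ω]
    (hΩ : Algebra.trdeg ℂ Ω = t) {f : (K →ₐ[ℂ] Ω) →₀ ℤ} (hf : NullTrace n f)
    (hcard : f.support.card < (N + 1) * (m + 2 - N)) : f = 0 := by
  haveI := ess_of_gen hgen
  have hcΩ : CharZero Ω := charZero_of_injective_algebraMap (algebraMap ℂ Ω).injective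
  obtain ⟨κ, hκ, hrel⟩ := hNTW n t K Ω hK hΩ ω₀ hadj.pl hadj.ne f hf
  by_contra h0
  refine hINX M n m N D K Ω x ω₀ hM hm hN hD hx0 hgen hK hcut hadj f.support
    (fun σ => (f σ : Ω) * κ σ) (Finsupp.support_nonempty_iff.2 h0) (fun σ hσ => mul_ne_zero
      (Int.cast_ne_zero.2 (Finsupp.mem_support_iff.1 hσ)) (hκ σ hσ)) hcard fun P hP => ?_
  exact hrel _ (hadj.reg P hP)

variable {L K' : Type} [Field L] [Algebra ℂ L] [Algebra.EssFiniteType ℂ L] [Field K']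
  [Algebra ℂ K'] [Algebra K K'] [IsScalarTower ℂ K K'] [Algebra.IsAlgebraic K K'] [Algebra L K']
  [IsScalarTower ℂ L K'] [FiniteDimensional L K']

omit [Algebra.EssFiniteType ℂ L] [Algebra.IsAlgebraic K K'] in
/-- some trace is not zero -/
theorem trace_ne (hTRS : StTRS) (hr : Module.finrank L K' < (N + 1) * (m + 2 - N)) {u : K'}
    (hu : u ≠ 0) (hu' : u ∈ IntermediateField.adjoin L (Set.range (algebraMap K K'))) :
    ∃ P : MvPolynomial (Fin (M + 2)) ℂ, P.IsHomogeneous m ∧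
      Algebra.trace L K' (algebraMap K K' (aeval x P) * u) ≠ 0 := by
  have hcL : CharZero L := charZero_of_injective_algebraMap (algebraMap ℂ L).injective
  by_contra hcon
  push Not at hcon
  obtain ⟨S, κ, hS, hSc, hκ, hsum⟩ := hTRS L K K' (AlgebraicClosure L) u hu hu'
    (IsScalarTower.toAlgHom ℂ L (AlgebraicClosure L))
  refine hINX M n m N D K (AlgebraicClosure L) x ω₀ hM hm hN hD hx0 hgen hK hcut hadj S κ hS
    (fun ρ hρ => (hκ ρ hρ).1) (lt_of_le_of_lt hSc hr) fun P hP => ?_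
  rw [← hsum, hcon P hP, map_zero]

/-- canonical forms -/
theorem pg_ (hTRF : StTRF) (hTRS : StTRS) (hr : Module.finrank L K' < (N + 1) * (m + 2 - N)) :
    ∃ ω : (Fin n → Derivation ℂ L L) → L, GlobalForm n ω ∧ ∃ D, ω D ≠ 0 := by
  haveI := ess_of_gen hgen
  obtain ⟨u, ω, hu, hu', hpl, ⟨D₀, hD₀⟩, hreg⟩ := hTRF n L K K' hK ω₀ hadj.pl hadj.ne
  obtain ⟨P, hP, hne⟩ := trace_ne hINX hM hm hN hD hx0 hgen hK hcut hadj hTRS hr hu hu'
  exact ⟨_, hreg _ (hadj.reg P hP), D₀, mul_ne_zero hne hD₀⟩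

omit [Algebra.EssFiniteType ℂ L] [Algebra.IsAlgebraic K K'] in
/-- two fibres -/
theorem two (hTRS : StTRS) (hr : 2 * Module.finrank L K' < (N + 1) * (m + 2 - N)) {u : K'}
    (hu : u ≠ 0) (hu' : u ∈ IntermediateField.adjoin L (Set.range (algebraMap K K')))
    {P₀ : MvPolynomial (Fin (M + 2)) ℂ}
    (hP₀ : Algebra.trace L K' (algebraMap K K' (aeval x P₀) * u) ≠ 0) {Ω : Type} [Field Ω]
    [Algebra ℂ Ω] [IsAlgClosed Ω] (σ τ : L →ₐ[ℂ] Ω)
    (hστ : ∀ P : MvPolynomial (Fin (M + 2)) ℂ, P.IsHomogeneous m →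
      σ (Algebra.trace L K' (algebraMap K K' (aeval x P) * u) /
        Algebra.trace L K' (algebraMap K K' (aeval x P₀) * u)) =
      τ (Algebra.trace L K' (algebraMap K K' (aeval x P) * u) /
        Algebra.trace L K' (algebraMap K K' (aeval x P₀) * u))) :
    ∃ σ' τ' : K' →ₐ[ℂ] Ω, (∀ a, σ' (algebraMap L K' a) = σ a) ∧
      (∀ a, τ' (algebraMap L K' a) = τ a) ∧
      ∀ b : K, σ' (algebraMap K K' b) = τ' (algebraMap K K' b) := by
  classical
  have hcL : CharZero L := charZero_of_injective_algebraMap (algebraMap ℂ L).injective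
  obtain ⟨S, κ, hS, hSc, hκ, hsum⟩ := hTRS L K K' Ω u hu hu' σ
  obtain ⟨S', κ', hS', hSc', hκ', hsum'⟩ := hTRS L K K' Ω u hu hu' τ
  by_contra hcon
  push Not at hcon
  obtain ⟨w, hw⟩ : ∃ w, w = Algebra.trace L K' (algebraMap K K' (aeval x P₀) * u) := ⟨_, rfl⟩
  rw [← hw] at hP₀ hστ
  have hσw : σ w ≠ 0 := (map_ne_zero σ).2 hP₀
  have hτw : τ w ≠ 0 := (map_ne_zero τ).2 hP₀
  have hdisj : Disjoint S S' := by
    rw [Finset.disjoint_left]
    intro ρ hρ hρ'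
    obtain ⟨-, σ', h1, h2⟩ := hκ ρ hρ
    obtain ⟨-, τ', h3, h4⟩ := hκ' ρ hρ'
    obtain ⟨b, hb⟩ := hcon σ' τ' h1 h3
    exact hb (by rw [h2, h4])
  obtain ⟨lam, hlam⟩ : ∃ lam : (K →ₐ[ℂ] Ω) → Ω, ∀ ρ, lam ρ =
      if ρ ∈ S then τ w * κ ρ else -(σ w * κ' ρ) := ⟨_, fun _ => rfl⟩
  have hlam1 : ∀ ρ ∈ S, lam ρ = τ w * κ ρ := fun ρ h => by rw [hlam, if_pos h]
  have hlam2 : ∀ ρ ∈ S', lam ρ = -(σ w * κ' ρ) := fun ρ h => by
    rw [hlam, if_neg (Finset.disjoint_right.1 hdisj h)]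
  refine hINX M n m N D K Ω x ω₀ hM hm hN hD hx0 hgen hK hcut hadj (S ∪ S') lam
    (hS.mono Finset.subset_union_left) (fun ρ hρ => ?_)
    (lt_of_le_of_lt ((Finset.card_union_le _ _).trans (by omega)) hr) fun P hP => ?_
  · rcases Finset.mem_union.1 hρ with h | h
    · rw [hlam1 ρ h]
      exact mul_ne_zero hτw (hκ ρ h).1
    · rw [hlam2 ρ h]
      exact neg_ne_zero.2 (mul_ne_zero hσw (hκ' ρ h).1)
  · rw [Finset.sum_union hdisj]
    have h1 : ∑ ρ ∈ S, lam ρ * ρ (aeval x P) =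
        τ w * σ (Algebra.trace L K' (algebraMap K K' (aeval x P) * u)) := by
      rw [hsum, Finset.mul_sum]
      exact Finset.sum_congr rfl fun ρ h => by rw [hlam1 ρ h, mul_assoc]
    have h2 : ∑ ρ ∈ S', lam ρ * ρ (aeval x P) =
        -(σ w * τ (Algebra.trace L K' (algebraMap K K' (aeval x P) * u))) := by
      rw [hsum', Finset.mul_sum, ← Finset.sum_neg_distrib]
      exact Finset.sum_congr rfl fun ρ h => by rw [hlam2 ρ h, neg_mul, mul_assoc]
    have h3 := hστ P hP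
    rw [map_div₀, map_div₀, div_eq_div_iff hσw hτw] at h3
    rw [h1, h2]
    linear_combination h3

/-- general type -/
theorem gt_ (hTRF : StTRF) (hTRS : StTRS) (hGPR : StGPR) (hGTY : StGTY)
    (hr : 2 * Module.finrank L K' < (N + 1) * (m + 2 - N)) : GeneralType ℂ L n := by
  haveI := ess_of_gen hgen
  obtain ⟨u, ω, hu, hu', hpl, ⟨D₀, hD₀⟩, hreg⟩ := hTRF n L K K' hK ω₀ hadj.pl hadj.ne
  obtain ⟨P₀, hP₀, hne⟩ := trace_ne hINX hM hm hN hD hx0 hgen hK hcut hadj hTRS (by omega) hu hu'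
  have hLK : Algebra.trdeg ℂ L = n := by
    rw [← hK, trdeg_alg ℂ L K', trdeg_alg ℂ K K']
  obtain ⟨T, hT⟩ : ∃ T : {P : MvPolynomial (Fin (M + 2)) ℂ // P.IsHomogeneous m} → L,
      ∀ P, T P = Algebra.trace L K' (algebraMap K K' (aeval x P.1) * u) := ⟨_, fun _ => rfl⟩
  refine hGTY n L _ T ⟨P₀, hP₀⟩ ω hLK hpl ⟨D₀, hD₀⟩ (by rw [hT]; exact hne)
    (fun P => by rw [hT]; exact hreg _ (hadj.reg P.1 P.2)) ?_
  by_contra halg
  obtain ⟨Ω, _, _, _, σ, τ, h1, h2⟩ := hGPR L _ n hLK halg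
  obtain ⟨σ', τ', h3, h4, h5⟩ := two hINX hM hm hN hD hx0 hgen hK hcut hadj hTRS hr hu hu' hne σ τ
    fun P hP => h1 _ (by
      rw [← hT ⟨P, hP⟩, ← hT ⟨P₀, hP₀⟩]
      exact IntermediateField.subset_adjoin ℂ (Set.range fun i => T i / T ⟨P₀, hP₀⟩)
        ⟨⟨P, hP⟩, rfl⟩)
  have halgK' : ∀ (θ : L →ₐ[ℂ] Ω) (θ' : K' →ₐ[ℂ] Ω), (∀ a, θ' (algebraMap L K' a) = θ a) →
      ∀ b, IsAlgebraic θ.fieldRange (θ' b) := by
    intro θ θ' h b
    obtain ⟨p, hp0, hp⟩ := Algebra.IsAlgebraic.isAlgebraic (R := L) b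
    refine ⟨p.map (θ.rangeRestrict : L →ₐ[ℂ] θ.range).toRingHom, ?_, ?_⟩
    · exact (Polynomial.map_ne_zero_iff (RingHom.injective _)).2 hp0
    · rw [Polynomial.aeval_def, Polynomial.eval₂_map]
      have h7 : (algebraMap θ.fieldRange Ω).comp (θ.rangeRestrict : L →ₐ[ℂ] θ.range).toRingHom =
          (θ' : K' →+* Ω).comp (algebraMap L K') := RingHom.ext fun a => (h a).symm
      have h8 := Polynomial.hom_eval₂ p (algebraMap L K') (θ' : K' →+* Ω) b
      rw [Polynomial.aeval_def] at hp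
      rw [hp, map_zero] at h8
      rw [h7]
      exact h8.symm
  refine h2 K hK (σ'.comp (IsScalarTower.toAlgHom ℂ K K')) (fun b => halgK' σ σ' h3 _) fun b => ?_
  have h6 : σ'.comp (IsScalarTower.toAlgHom ℂ K K') b = τ' (algebraMap K K' b) := h5 b
  rw [h6]
  exact halgK' τ τ' h4 _

end

section

variable {M n m N D : ℕ} {K : Type} [Field K] [Algebra ℂ K] {x : Fin (M + 2) → K}
  {ω₀ : (Fin n → Derivation ℂ K K) → K} (hINX : StINX) (hM : 1 ≤ M) (hm : 7 * N + 4 ≤ m)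
  (hN : (M + 1) * N < m + M + 2) (hD : D + N ≤ m + 2) (hx0 : x 0 = 1)
  (hgen : IntermediateField.adjoin ℂ (Set.range x) = ⊤) (hK : Algebra.trdeg ℂ K = n)
  (hcut : CutBy D x) (hadj : Adj m n x ω₀) {L : Type} [Field L] [Algebra ℂ L]
  [Algebra.EssFiniteType ℂ L] [Algebra L K] [IsScalarTower ℂ L K] [FiniteDimensional L K]

include hINX hM hm hN hD hx0 hgen hK hcut hadj

/-- the canonical map is birational -/
theorem bir_ (hTRF : StTRF) (hTRS : StTRS) (hPAI : StPAI)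
    (hr : 2 * Module.finrank L K < (N + 1) * (m + 2 - N)) :
    IntermediateField.adjoin ℂ {z : L | ∃ ω ω' : (Fin n → Derivation ℂ L L) → L,
      GlobalForm n ω ∧ GlobalForm n ω' ∧
      ∃ D : Fin n → Derivation ℂ L L, ω' D ≠ 0 ∧ z = ω D / ω' D} = ⊤ := by
  haveI := ess_of_gen hgen
  obtain ⟨u, ω, hu, hu', hpl, ⟨D₀, hD₀⟩, hreg⟩ := hTRF n L K K hK ω₀ hadj.pl hadj.ne
  obtain ⟨P₀, hP₀, hne⟩ := trace_ne (K' := K) hINX hM hm hN hD hx0 hgen hK hcut hadj hTRS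
    (by omega) hu hu'
  by_contra hcon
  obtain ⟨Ω, _, _, _, σ, τ, h1, h2⟩ := hPAI L _ hcon
  obtain ⟨σ', τ', h3, h4, h5⟩ := two (K' := K) hINX hM hm hN hD hx0 hgen hK hcut hadj hTRS hr hu
    hu' hne σ τ fun P hP => h1 _ (IntermediateField.subset_adjoin ℂ _
      ⟨_, _, hreg _ (hadj.reg P hP), hreg _ (hadj.reg P₀ hP₀), D₀, mul_ne_zero hne hD₀, by
        rw [mul_div_mul_right _ _ hD₀]⟩)
  apply h2
  ext a
  rw [← h3, ← h4]
  exact h5 (algebraMap L K a)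

end

end Pool.Agent.N162.GP
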