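import Pool.Agent.N162.GP.Stm

/-!
# Project GP, second part: smooth complete intersections; forms of lower degree
-/

set_option autoImplicit false

open FF Pool.Agent.W603.LV Pool.Agent.Y184.NT Pool.Agent.N162.BC IntermediateField MvPolynomial
open Pool.Agent.W602.GT

namespace Pool.Agent.N162.GP

/-- `V` is the smooth complete intersection of the hypersurfaces `F i = 0` of degree `d i` in
projective `(M + 1)`-space (the gradients of the `F i` are linearly independent at all common zeros),
`K` is its function field and `x` its generic point, `x 0 = 1`: a form vanishes at `x` if and only if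
it vanishes on `V`, that is, if it is in the radical of the ideal generated by the `F i`. -/
structure SmoothCI {M c : ℕ} {K : Type} [Field K] [Algebra ℂ K]
    (F : Fin c → MvPolynomial (Fin (M + 2)) ℂ) (d : Fin c → ℕ) (x : Fin (M + 2) → K) : Prop where
  hom : ∀ i, (F i).IsHomogeneous (d i)
  smooth : ∀ z : Fin (M + 2) → ℂ, z ≠ 0 → (∀ i, eval z (F i) = 0) →
    LinearIndependent ℂ fun (i : Fin c) (l : Fin (M + 2)) => eval z (pderiv l (F i))
  one : x 0 = 1
  generic : ∀ (e : ℕ) (P : MvPolynomial (Fin (M + 2)) ℂ), P.IsHomogeneous e →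
    (aeval x P = 0 ↔ P ∈ (Ideal.span (Set.range F)).radical)
  gen : IntermediateField.adjoin ℂ (Set.range x) = ⊤

/-- GP/CIC: complete intersections are cut out by their equations. -/
def StCIC : Prop := ∀ (M c D : ℕ) (K : Type) [Field K] [Algebra ℂ K]
  (F : Fin c → MvPolynomial (Fin (M + 2)) ℂ) (d : Fin c → ℕ) (x : Fin (M + 2) → K),
  SmoothCI F d x → (∀ i, d i ≤ D) → 1 ≤ D → CutBy D x

/-- GP/CIA: the residue forms on smooth complete intersections. -/
def StCIA : Prop := ∀ (M n c m : ℕ) (K : Type) [Field K] [Algebra ℂ K]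
  (F : Fin c → MvPolynomial (Fin (M + 2)) ℂ) (d : Fin c → ℕ) (x : Fin (M + 2) → K),
  SmoothCI F d x → 1 ≤ n → Algebra.trdeg ℂ K = n → n + c = M + 1 → m + M + 2 = ∑ i, d i →
  ∃ ω₀ : (Fin n → Derivation ℂ K K) → K, Adj m n x ω₀

/-- GP/TNF: the traces of the pull-backs of the regular canonical forms of `V` to a variety which
dominates `V`; the dimension `w` may be larger than `n`. -/
def StTNF : Prop := ∀ (n w : ℕ) (L K K' : Type) [Field L] [Algebra ℂ L]
  [Algebra.EssFiniteType ℂ L] [Field K] [Algebra ℂ K] [Algebra.EssFiniteType ℂ K] [Field K']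
  [Algebra ℂ K'] [Algebra K K'] [IsScalarTower ℂ K K'] [Algebra L K'] [IsScalarTower ℂ L K']
  [FiniteDimensional L K'], Algebra.trdeg ℂ K = n → Algebra.trdeg ℂ L = w →
  ∀ ω₀ : (Fin n → Derivation ℂ K K) → K, IsPluri 1 ω₀ → (∃ D, ω₀ D ≠ 0) →
  ∃ (u : K') (D₀ : Fin n → Derivation ℂ L L), u ≠ 0 ∧
    u ∈ IntermediateField.adjoin L (Set.range (algebraMap K K')) ∧
    ∀ b : K, GlobalForm n (fun D => b * ω₀ D) →
      ∃ η : AlternatingMap L (Derivation ℂ L L) L (Fin n),
        (∀ P : Place ℂ L, Divisorial w P → ∀ D : Fin n → Derivation ℂ L L,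
          (∀ i, DerReg P (D i)) → P.Reg (η D)) ∧
        η D₀ = Algebra.trace L K' (algebraMap K K' b * u)

end Pool.Agent.N162.GP
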