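import Pool.Agent.N162.GP.Final
import Pool.Agent.N162.GP.Stm2

/-!
Project GP: cycles on the images of `V`, forms of lower degree.
-/

set_option autoImplicit false
set_option linter.unusedSectionVars false

open FF Pool.Agent.W603.LV Pool.Agent.Y184.NT Pool.Agent.N162.BC IntermediateField MvPolynomial
open Pool.Agent.W602.GT
open Pool.Agent.N162.HN (pt)

namespace Pool.Agent.N162.GP

section

variable {M n m N D : ℕ} {K : Type} [Field K] [Algebra ℂ K] {x : Fin (M + 2) → K}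
  {ω₀ : (Fin n → Derivation ℂ K K) → K} (hINX : StINX) (hM : 1 ≤ M) (hm : 7 * N + 4 ≤ m)
  (hN : (M + 1) * N < m + M + 2) (hD : D + N ≤ m + 2) (hx0 : x 0 = 1)
  (hgen : IntermediateField.adjoin ℂ (Set.range x) = ⊤) (hK : Algebra.trdeg ℂ K = n)
  (hcut : CutBy D x) (hadj : Adj m n x ω₀)

include hINX hM hm hN hD hx0 hgen hK hcut hadj

/-- cycles with null trace and few points on an image of `V` are zero -/
theorem null_zero' (hTRF : StTRF) (hTRS : StTRS) (hNTW : StNTW) {L : Type} [Field L] [Algebra ℂ L]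
    [Algebra.EssFiniteType ℂ L] [Algebra L K] [IsScalarTower ℂ L K] [FiniteDimensional L K]
    {t : ℕ} {Ω : Type} [Field Ω] [Algebra ℂ Ω] [IsAlgClosed Ω] (hΩ : Algebra.trdeg ℂ Ω = t)
    {f : (L →ₐ[ℂ] Ω) →₀ ℤ} (hf : NullTrace n f)
    (hcard : f.support.card * Module.finrank L K < (N + 1) * (m + 2 - N)) : f = 0 := by
  classical
  haveI := ess_of_gen hgen
  have hcL : CharZero L := charZero_of_injective_algebraMap (algebraMap ℂ L).injective
  have hcΩ : CharZero Ω := charZero_of_injective_algebraMap (algebraMap ℂ Ω).injective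
  have hLn : Algebra.trdeg ℂ L = n := by rw [← hK, trdeg_alg ℂ L K]
  obtain ⟨u, ω, hu, hu', hpl, hne, hreg⟩ := hTRF n L K K hK ω₀ hadj.pl hadj.ne
  obtain ⟨κ, hκ, hrel⟩ := hNTW n t L Ω hLn hΩ ω hpl hne f hf
  choose S κ' hS hSc hκ' hsum using fun σ : L →ₐ[ℂ] Ω => hTRS L K K Ω u hu hu' σ
  have hres : ∀ σ, ∀ ρ ∈ S σ, ρ.comp (IsScalarTower.toAlgHom ℂ L K) = σ := by
    intro σ ρ hρ
    obtain ⟨-, σ', h1, h2⟩ := hκ' σ ρ hρ
    ext a
    change ρ (algebraMap L K a) = σ a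
    rw [← h1, ← h2]
    rfl
  by_contra h0
  obtain ⟨lam, hlam⟩ : ∃ lam : (K →ₐ[ℂ] Ω) → Ω, ∀ ρ, lam ρ =
      (f (ρ.comp (IsScalarTower.toAlgHom ℂ L K)) : Ω) *
        κ (ρ.comp (IsScalarTower.toAlgHom ℂ L K)) *
        κ' (ρ.comp (IsScalarTower.toAlgHom ℂ L K)) ρ := ⟨_, fun _ => rfl⟩
  have hlam' : ∀ σ, ∀ ρ ∈ S σ, lam ρ = (f σ : Ω) * κ σ * κ' σ ρ := by
    intro σ ρ hρ
    rw [hlam, hres σ ρ hρ]
  obtain ⟨σ₀, hσ₀⟩ := Finsupp.support_nonempty_iff.2 h0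
  refine hINX M n m N D K Ω x ω₀ hM hm hN hD hx0 hgen hK hcut hadj (f.support.biUnion S) lam
    ⟨(hS σ₀).choose, Finset.mem_biUnion.2 ⟨σ₀, hσ₀, (hS σ₀).choose_spec⟩⟩ (fun ρ hρ => ?_)
    (lt_of_le_of_lt Finset.card_biUnion_le (lt_of_le_of_lt (Finset.sum_le_card_nsmul _ _
      (Module.finrank L K) fun σ _ => hSc σ) hcard)) fun P hP => ?_
  · obtain ⟨σ, hσ, hρ'⟩ := Finset.mem_biUnion.1 hρ
    rw [hlam' σ ρ hρ']
    exact mul_ne_zero (mul_ne_zero (Int.cast_ne_zero.2 (Finsupp.mem_support_iff.1 hσ)) (hκ σ hσ))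
      (hκ' σ ρ hρ').1
  · rw [Finset.sum_biUnion]
    · have h1 := hrel _ (hreg _ (hadj.reg P hP))
      rw [← h1]
      refine Finset.sum_congr rfl fun σ _ => ?_
      rw [hsum, Finset.mul_sum]
      refine Finset.sum_congr rfl fun ρ hρ => ?_
      rw [hlam' σ ρ hρ]
      ring
    · intro σ _ τ _ hστ
      change Disjoint (S σ) (S τ)
      rw [Finset.disjoint_left]
      intro ρ hρ hρ'
      exact hστ ((hres σ ρ hρ).symm.trans (hres τ ρ hρ'))

/-- forms of lower degree on the varieties which are dominated by a variety dominating `V` -/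
theorem forms_ (hTNF : StTNF) (hTRS : StTRS) {w : ℕ} {L R : Type} [Field L] [Algebra ℂ L]
    [Algebra.EssFiniteType ℂ L] [Field R] [Algebra ℂ R] [Algebra K R] [IsScalarTower ℂ K R]
    [Algebra L R] [IsScalarTower ℂ L R] [FiniteDimensional L R] (hL : Algebra.trdeg ℂ L = w)
    (hr : Module.finrank L R < (N + 1) * (m + 2 - N)) :
    ∃ η : AlternatingMap L (Derivation ℂ L L) L (Fin n), η ≠ 0 ∧
      ∀ P : Place ℂ L, Divisorial w P → ∀ D : Fin n → Derivation ℂ L L,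
        (∀ i, DerReg P (D i)) → P.Reg (η D) := by
  haveI := ess_of_gen hgen
  obtain ⟨u, D₀, hu, hu', hη⟩ := hTNF n w L K R hK hL ω₀ hadj.pl hadj.ne
  obtain ⟨P, hP, hne⟩ := trace_ne (K' := R) hINX hM hm hN hD hx0 hgen hK hcut hadj hTRS hr hu hu'
  obtain ⟨η, h1, h2⟩ := hη _ (hadj.reg P hP)
  refine ⟨η, fun h0 => hne ?_, h1⟩
  rw [← h2, h0]
  rfl

end

end Pool.Agent.N162.GP
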