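import Pool.Agent.N162.GP.Final2
import Pool.Agent.N162.GP.Stm3

/-!
Project GP: many forms of lower degree.
-/

set_option autoImplicit false
set_option linter.unusedSectionVars false

open FF Pool.Agent.W603.LV Pool.Agent.Y184.NT Pool.Agent.N162.BC IntermediateField MvPolynomial
open Pool.Agent.W602.GT
open Pool.Agent.N162.HN (pt)

namespace Pool.Agent.N162.GP

/-- evaluation of alternating maps -/
def evA {L : Type} [Field L] [Algebra ℂ L] {n : ℕ} (D₀ : Fin n → Derivation ℂ L L) :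
    AlternatingMap L (Derivation ℂ L L) L (Fin n) →+ L where
  toFun := fun η => η D₀
  map_zero' := rfl
  map_add' := fun _ _ => rfl

theorem alg_range {L R Ω : Type} [Field L] [Algebra ℂ L] [Field R] [Algebra ℂ R] [Algebra L R]
    [IsScalarTower ℂ L R] [FiniteDimensional L R] [Field Ω] [Algebra ℂ Ω] (θ : L →ₐ[ℂ] Ω)
    (θ' : R →ₐ[ℂ] Ω) (h : ∀ a, θ' (algebraMap L R a) = θ a) (b : R) :
    IsAlgebraic θ.fieldRange (θ' b) := by
  obtain ⟨p, hp0, hp⟩ := Algebra.IsAlgebraic.isAlgebraic (R := L) b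
  refine ⟨p.map (θ.rangeRestrict : L →ₐ[ℂ] θ.range).toRingHom, ?_, ?_⟩
  · exact (Polynomial.map_ne_zero_iff (RingHom.injective _)).2 hp0
  · rw [Polynomial.aeval_def, Polynomial.eval₂_map]
    have h7 : (algebraMap θ.fieldRange Ω).comp (θ.rangeRestrict : L →ₐ[ℂ] θ.range).toRingHom =
        (θ' : R →+* Ω).comp (algebraMap L R) := RingHom.ext fun a => (h a).symm
    have h8 := Polynomial.hom_eval₂ p (algebraMap L R) (θ' : R →+* Ω) b
    rw [Polynomial.aeval_def] at hp
    rw [hp, map_zero] at h8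
    rw [h7]
    exact h8.symm

section

variable {M n m N D : ℕ} {K : Type} [Field K] [Algebra ℂ K] {x : Fin (M + 2) → K}
  {ω₀ : (Fin n → Derivation ℂ K K) → K} (hINX : StINX) (hM : 1 ≤ M) (hm : 7 * N + 4 ≤ m)
  (hN : (M + 1) * N < m + M + 2) (hD : D + N ≤ m + 2) (hx0 : x 0 = 1)
  (hgen : IntermediateField.adjoin ℂ (Set.range x) = ⊤) (hK : Algebra.trdeg ℂ K = n)
  (hcut : CutBy D x) (hadj : Adj m n x ω₀)

include hINX hM hm hN hD hx0 hgen hK hcut hadj

/-- many forms -/
theorem forms_k (hTNF : StTNF) (hTRS : StTRS) (hKGP : StKGP) (hn : 1 ≤ n) {w k : ℕ} {L R : Type}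
    [Field L] [Algebra ℂ L] [Algebra.EssFiniteType ℂ L] [Field R] [Algebra ℂ R] [Algebra K R]
    [IsScalarTower ℂ K R] [Algebra L R] [IsScalarTower ℂ L R] [FiniteDimensional L R]
    (hL : Algebra.trdeg ℂ L = w) (hr : k * Module.finrank L R < (N + 1) * (m + 2 - N)) :
    ∃ η : Fin k → AlternatingMap L (Derivation ℂ L L) L (Fin n), LinearIndependent ℂ η ∧
      ∀ j, ∀ P : Place ℂ L, Divisorial w P → ∀ D : Fin n → Derivation ℂ L L,
        (∀ i, DerReg P (D i)) → P.Reg (η j D) := by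
  classical
  haveI := ess_of_gen hgen
  have hcL : CharZero L := charZero_of_injective_algebraMap (algebraMap ℂ L).injective
  obtain ⟨u, D₀, hu, hu', hη⟩ := hTNF n w L K R hK hL ω₀ hadj.pl hadj.ne
  choose η h1 h2 using fun P : {P : MvPolynomial (Fin (M + 2)) ℂ // P.IsHomogeneous m} =>
    hη (aeval x P.1) (hadj.reg P.1 P.2)
  obtain ⟨Ω, _, _, _, σ, hσ⟩ := hKGP w k L hL
  choose S κ hS hSc hκ hsum using fun i => hTRS L K R Ω u hu hu' (σ i)
  -- the fibres are disjoint
  have hdisj : ∀ i j, i ≠ j → Disjoint (S i) (S j) := by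
    intro i j hij
    rw [Finset.disjoint_left]
    intro ρ hρ hρ'
    obtain ⟨-, θ, h3, h4⟩ := hκ i ρ hρ
    obtain ⟨-, θ', h5, h6⟩ := hκ j ρ hρ'
    have h7 : ∀ b : K, ∃ z : ℂ, b = algebraMap ℂ K z := by
      intro b
      obtain ⟨z, hz⟩ := hσ i j hij (ρ b) (by rw [← h4]; exact alg_range _ _ h3 _)
        (by rw [← h6]; exact alg_range _ _ h5 _)
      refine ⟨z, ρ.toRingHom.injective ?_⟩
      change ρ b = ρ (algebraMap ℂ K z)
      rw [hz, AlgHom.commutes]
    have h8 : Algebra.IsAlgebraic ℂ K := ⟨fun b => by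
      obtain ⟨z, rfl⟩ := h7 b
      exact isAlgebraic_algebraMap z⟩
    have h9 : Algebra.trdeg ℂ K = 0 := trdeg_eq_zero_iff.2 h8
    rw [hK] at h9
    have : n = 0 := by exact_mod_cast h9
    omega
  obtain ⟨v, hv⟩ : ∃ v : {P : MvPolynomial (Fin (M + 2)) ℂ // P.IsHomogeneous m} → Fin k → Ω,
    ∀ P i, v P i = σ i (Algebra.trace L R (algebraMap K R (aeval x P.1) * u)) :=
    ⟨_, fun _ _ => rfl⟩
  have hspan : Submodule.span Ω (Set.range v) = ⊤ := by
    by_contra hne
    obtain ⟨f, hf0, hf⟩ := Submodule.exists_le_ker_of_lt_top _ (lt_top_iff_ne_top.2 hne)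
    obtain ⟨a, ha⟩ : ∃ a : Fin k → Ω, ∀ i, a i = f (Pi.single i 1) := ⟨_, fun _ => rfl⟩
    have hfa : ∀ y : Fin k → Ω, f y = ∑ i, a i * y i := by
      intro y
      conv_lhs => rw [LinearMap.pi_apply_eq_sum_univ f y]
      refine Finset.sum_congr rfl fun i _ => ?_
      rw [smul_eq_mul, mul_comm, ha]
      congr 2
      funext j
      rw [Pi.single_apply]
      simp only [eq_comm]
    obtain ⟨i₀, hi₀⟩ : ∃ i, a i ≠ 0 := by
      by_contra hcon
      push Not at hcon
      apply hf0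
      ext y
      · simp [hfa, hcon]
    obtain ⟨lam, hlam⟩ : ∃ lam : (K →ₐ[ℂ] Ω) → Ω, ∀ ρ, lam ρ =
      ∑ i, if ρ ∈ S i then a i * κ i ρ else 0 := ⟨_, fun _ => rfl⟩
    have hlam' : ∀ i, ∀ ρ ∈ S i, lam ρ = a i * κ i ρ := by
      intro i ρ hρ
      rw [hlam, Finset.sum_eq_single i]
      · rw [if_pos hρ]
      · intro j _ hj
        rw [if_neg (Finset.disjoint_left.1 (hdisj i j (Ne.symm hj)) hρ)]
      · intro h
        exact absurd (Finset.mem_univ _) h
    refine hINX M n m N D K Ω x ω₀ hM hm hN hD hx0 hgen hK hcut hadj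
      ((Finset.univ.filter fun i => a i ≠ 0).biUnion S) lam
      ⟨(hS i₀).choose, Finset.mem_biUnion.2 ⟨i₀, Finset.mem_filter.2 ⟨Finset.mem_univ _, hi₀⟩,
        (hS i₀).choose_spec⟩⟩ (fun ρ hρ => ?_)
      (lt_of_le_of_lt Finset.card_biUnion_le (lt_of_le_of_lt (Finset.sum_le_card_nsmul _ _
        (Module.finrank L R) fun i _ => hSc i) (lt_of_le_of_lt ?_ hr))) fun P hP => ?_
    · obtain ⟨i, hi, hρ'⟩ := Finset.mem_biUnion.1 hρ
      rw [hlam' i ρ hρ']
      exact mul_ne_zero (Finset.mem_filter.1 hi).2 (hκ i ρ hρ').1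
    · rw [smul_eq_mul]
      refine Nat.mul_le_mul_right _ ((Finset.card_filter_le _ _).trans ?_)
      simp
    · rw [Finset.sum_biUnion fun i _ j _ hij => hdisj i j hij]
      have h3 : f (v ⟨P, hP⟩) = 0 := hf (Submodule.subset_span ⟨_, rfl⟩)
      rw [hfa] at h3
      rw [Finset.sum_filter]
      refine Eq.trans (Finset.sum_congr rfl fun i _ => ?_) h3
      split_ifs with h4
      · rw [hv, hsum, Finset.mul_sum]
        refine Finset.sum_congr rfl fun ρ hρ => ?_
        rw [hlam' i ρ hρ]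
        ring
      · push Not at h4
        rw [h4, zero_mul]
  obtain ⟨b, hb, hbs, hbl⟩ := exists_linearIndependent Ω (Set.range v)
  rw [hspan] at hbs
  have hB := Module.Basis.mk hbl (by rw [Subtype.range_coe, hbs])
  have e : Fin k ≃ b := (hB.indexEquiv (Pi.basisFun Ω (Fin k))).symm
  choose P hP using fun j : Fin k => hb (e j).2
  have hli : LinearIndependent Ω fun j => v (P j) := by
    have h3 := hbl.comp e e.injective
    have h4 : (fun j => v (P j)) = Subtype.val ∘ e := funext hP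
    rw [h4]
    exact h3
  refine ⟨fun j => η (P j), ?_, fun j => h1 (P j)⟩
  rw [Fintype.linearIndependent_iff] at hli ⊢
  intro c hc j
  have h3 := hli (fun j => algebraMap ℂ Ω (c j)) (by
    funext i
    rw [Finset.sum_apply, Pi.zero_apply]
    have h4 := congrArg (evA D₀) hc
    rw [map_sum, map_zero] at h4
    have h5 := congrArg (σ i) h4
    rw [map_sum, map_zero] at h5
    refine Eq.trans (Finset.sum_congr rfl fun j _ => ?_) h5
    change algebraMap ℂ Ω (c j) * v (P j) i = σ i (c j • η (P j) D₀)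
    rw [hv, h2, map_smul, Algebra.smul_def]) j
  exact (map_eq_zero (algebraMap ℂ Ω)).1 h3

end

end Pool.Agent.N162.GP
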