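import Pool.Agent.N162.GP.Stm
import Pool.Agent.N162.HN.Pts
import Pool.Agent.N162.BC.Pull
import Pool.Agent.Y172.Cov3

/-!
Few generic points impose independent conditions on the canonical forms: assembly.
-/

set_option autoImplicit false
set_option linter.unusedSectionVars false

open FF Pool.Agent.W603.LV Pool.Agent.Y184.NT Pool.Agent.N162.BC IntermediateField MvPolynomial
open Pool.Agent.W602.GT
open Pool.Agent.N162.CV (PRel MonicY)
open Pool.Agent.N162.HN (Crv Good At mu pr act pt Prj sub sub_hom aeval_sub pt_inj pt_act pt_aeval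
  adjoin_act StB1 StCUR)

namespace Pool.Agent.N162.GP

section

variable {M n m N D : ℕ} {K Ω : Type} [Field K] [Algebra ℂ K] [Field Ω] [Algebra ℂ Ω]

/-- the relation between the points for forms over `Ω` -/
theorem rel_ext {x : Fin (M + 2) → K} {S : Finset (K →ₐ[ℂ] Ω)} {lam : (K →ₐ[ℂ] Ω) → Ω}
    (h : ∀ P : MvPolynomial (Fin (M + 2)) ℂ, P.IsHomogeneous m →
      ∑ σ ∈ S, lam σ * σ (aeval x P) = 0) (P : MvPolynomial (Fin (M + 2)) Ω)
    (hP : P.IsHomogeneous m) : ∑ σ ∈ S, lam σ * eval (pt x σ) P = 0 := by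
  classical
  have h1 : ∀ v : Fin (M + 2) → Ω, eval v P = ∑ e ∈ P.support, P.coeff e * ∏ i, v i ^ e i := by
    intro v
    rw [eval_eq']
  simp only [h1, Finset.mul_sum]
  rw [Finset.sum_comm]
  refine Finset.sum_eq_zero fun e he => ?_
  have h2 := h (monomial e 1) (isHomogeneous_monomial _ (by
    have h3 := hP (mem_support_iff.1 he)
    rw [← h3, Finsupp.degree_eq_weight_one]
    rfl))
  have h4 : ∀ σ : K →ₐ[ℂ] Ω, σ (aeval x (monomial e (1 : ℂ))) = ∏ i, pt x σ i ^ e i := by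
    intro σ
    rw [← pt_aeval, aeval_monomial, map_one, one_mul, Finsupp.prod_fintype _ _ (by simp)]
  simp only [h4] at h2
  have h5 := congrArg (fun a => P.coeff e * a) h2
  simp only [mul_zero, Finset.mul_sum] at h5
  rw [← h5]
  exact Finset.sum_congr rfl fun σ _ => by ring

theorem form_ne {z : Fin n → K} {e : Fin n → Derivation ℂ K K} (hz : IsTranscendenceBasis ℂ z)
    (he : ∀ i j, e i (z j) = if i = j then 1 else 0) {ω₀ : (Fin n → Derivation ℂ K K) → K}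
    (hpl : IsPluri 1 ω₀) (hne : ∃ D, ω₀ D ≠ 0) : ω₀ e ≠ 0 := by
  obtain ⟨D, hD⟩ := hne
  intro h0
  apply hD
  rw [pluri_eq hz he hpl D]
  unfold stdForm
  rw [h0]
  ring

/-- no curves of low degree through generic points -/
theorem nom (hGE : StGE) (hGL : StGL) {t : ℕ} [IsAlgClosed Ω] {x : Fin (M + 2) → K}
    {ω₀ : (Fin n → Derivation ℂ K K) → K} (hx0 : x 0 = 1)
    (hgen : IntermediateField.adjoin ℂ (Set.range x) = ⊤) (hK : Algebra.trdeg ℂ K = n)
    (hΩ : Algebra.trdeg ℂ Ω = t) (hadj : Adj m n x ω₀) (C : Crv M Ω) (φ : K →+* C.E)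
    (hφ : ∀ z : ℂ, φ (algebraMap ℂ K z) = algebraMap Ω C.E (algebraMap ℂ Ω z))
    (hφx : ∀ j, φ (x j) = C.X j) (hdeg : C.deg ≤ m + 1) : False := by
  letI : Algebra ℂ C.E := ((algebraMap Ω C.E).comp (algebraMap ℂ Ω)).toAlgebra
  haveI : IsScalarTower ℂ Ω C.E := IsScalarTower.of_algebraMap_eq fun _ => rfl
  obtain ⟨φ', hφ'⟩ : ∃ φ' : K →ₐ[ℂ] C.E, ∀ a, φ' a = φ a :=
    ⟨{ φ with commutes' := hφ }, fun _ => rfl⟩
  obtain ⟨z, e, hz, he⟩ := Pool.Agent.Y172.exists_crd (k := ℂ) (K := K) hK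
  have hX : (fun j => φ' (x j)) = C.X := by
    funext j
    rw [hφ', hφx]
  have h1 : φ' (x 1) = C.X 1 := by rw [hφ', hφx]
  obtain ⟨i₀, δ, h2, h3, h4, h5⟩ := hGL n t K Ω C.E hK hΩ φ' (x 1) (by
    rw [h1]
    exact C.good.tr) z hz
  have h6 := hGE M n m t K Ω C.E x ω₀ hx0 hgen hK hΩ hadj φ' (by
    rw [hX]
    exact C.good) (by
    rw [h1]
    exact hdeg) z e hz he i₀ δ h2 h3 h4
  rcases mul_eq_zero.1 h6 with h7 | h7
  · exact h5 h7
  · exact form_ne hz he hadj.pl hadj.ne ((map_eq_zero φ').1 h7)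

theorem ind_ (hB1 : StB1) (hCUR : StCUR) (hPRJ : StPRJ) (hGM : StGM) (hGC : StGC) (hGE : StGE)
    (hGL : StGL) (hCRD : StCRD) : StIND := by
  classical
  intro M n m N D t K Ω _ _ _ _ _ x ω₀ hM hm hN hD hx0 hgen hK hΩ hcut hadj S lam hS hlam hcard hrel
  have hcΩ : CharZero Ω := charZero_of_injective_algebraMap (algebraMap ℂ Ω).injective
  have hcK : CharZero K := charZero_of_injective_algebraMap (algebraMap ℂ K).injective
  obtain ⟨B, B', A, hBB', hB'B, hB0, hA, -⟩ := hB1 M Ω (K →ₐ[ℂ] Ω) S (pt x) lam m N (X 1) hM hS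
    (fun σ _ => by
      change σ (x 0) = 1
      rw [hx0, map_one]) (pt_inj hgen).injOn hlam (rel_ext hrel) hm hcard
    ⟨Pi.single 1 1, by simp, by simp⟩
  obtain ⟨y, hy⟩ : ∃ y, y = act B x := ⟨_, rfl⟩
  have hy0 : y 0 = 1 := by
    rw [hy]
    unfold act
    rw [Finset.sum_eq_single 0]
    · rw [hB0, if_pos rfl, hx0]
      simp
    · intro j _ hj
      rw [hB0, if_neg hj]
      simp
    · intro h
      exact absurd (Finset.mem_univ _) h
  have hgy : IntermediateField.adjoin ℂ (Set.range y) = ⊤ := by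
    rw [hy]
    exact adjoin_act hB'B hgen
  obtain ⟨hcy, hay⟩ := hCRD M n m D K x ω₀ B B' hBB' hB'B hcut hadj
  rw [← hy] at hcy hay
  have hpt : ∀ σ : K →ₐ[ℂ] Ω, act B (pt x σ) = pt y σ := fun σ => by rw [hy, pt_act]
  simp only [hpt] at hA
  have hinj : Function.Injective (pt y : (K →ₐ[ℂ] Ω) → Fin (M + 2) → Ω) := pt_inj hgy
  have hrely : ∀ P : MvPolynomial (Fin (M + 2)) Ω, P.IsHomogeneous m →
      ∑ σ ∈ S, lam σ * eval (pt y σ) P = 0 := rel_ext fun P hP => by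
    rw [hy]
    have h1 := hrel (sub B P) (sub_hom hP B)
    simp only [aeval_sub] at h1
    exact h1
  obtain ⟨S', hS'⟩ : ∃ S', S' = S.image (pt y : (K →ₐ[ℂ] Ω) → Fin (M + 2) → Ω) := ⟨_, rfl⟩
  obtain ⟨lam', hlam'⟩ : ∃ lam' : (Fin (M + 2) → Ω) → Ω, ∀ σ : K →ₐ[ℂ] Ω, lam' (pt y σ) = lam σ :=
    ⟨Function.extend (pt y) lam 0, fun σ => hinj.extend_apply _ _ _⟩
  have hmem : ∀ p ∈ S', ∃ σ ∈ S, pt y σ = p := fun p hp => by
    rw [hS'] at hp
    exact Finset.mem_image.1 hp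
  have hS0 : ∀ p ∈ S', p 0 = 1 := by
    intro p hp
    obtain ⟨σ, _, rfl⟩ := hmem p hp
    change σ (y 0) = 1
    rw [hy0, map_one]
  obtain ⟨r, C, h1, h2, h3, h4⟩ := hCUR M Ω A hM (fun l => (hA l).1) (fun l => (hA l).2.1)
  obtain ⟨t₀, G, hG, hGi⟩ := hPRJ M r Ω A C hM (fun l => ⟨(hA l).1, (hA l).2.1⟩) ⟨h1, h2, h3, h4⟩ S'
    hS0
  obtain ⟨i, T, hTS, hTne, hTon, hgi, hTc⟩ := hGM M m N r Ω S' lam' _ _ A t₀ G hM hm hN
    (by rw [hS']; exact hS.image _) (by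
      rw [hS']
      exact lt_of_le_of_lt Finset.card_image_le hcard) (fun p hp => ⟨hS0 p hp, by
        obtain ⟨σ, hσ, rfl⟩ := hmem p hp
        rw [hlam']
        exact hlam σ hσ⟩) (fun P hP => by
        rw [hS', Finset.sum_image fun a _ b _ hab => hinj hab]
        simp only [hlam']
        exact hrely P hP) (fun l => ⟨(hA l).1, (hA l).2.1, (hA l).2.2.1, fun p hp => by
        obtain ⟨σ, hσ, rfl⟩ := hmem p hp
        exact (hA l).2.2.2 σ hσ⟩) hG hGi
  have hcard' : (C i).deg * D < T.card := by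
    rcases Nat.eq_zero_or_pos (C i).deg with h0 | h0
    · rw [h0, zero_mul]
      exact hTne.card_pos
    · refine lt_of_lt_of_le (Nat.mul_lt_mul_of_pos_left ?_ h0) hTc
      omega
  obtain ⟨φ, hφ, hφy⟩ := hGC M D K Ω y hy0 hgy hcy (C i) T (fun p hp => ⟨hTon p hp, by
    obtain ⟨σ, _, h⟩ := hmem p (hTS hp)
    exact ⟨σ, h.symm⟩⟩) hcard'
  exact nom hGE hGL hy0 hgy hK hΩ hay (C i) φ hφ hφy (by omega)

end

end Pool.Agent.N162.GP
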