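import Pool.Agent.N162.GP.Facts
import Pool.Agent.N162.GP.Def
import Pool.Agent.N145.SX.All

/-!
Project GP: the canonical forms of `V` separate many generic points.
-/

set_option autoImplicit false
set_option linter.unusedSectionVars false
set_option linter.overlappingInstances false

open FF Pool.Agent.W603.LV Pool.Agent.Y184.NT Pool.Agent.N162.BC IntermediateField MvPolynomial
open Pool.Agent.W602.GT
open Pool.Agent.N145.SX (SepX HX form_coord)

namespace Pool.Agent.N162.GP

/-- The canonical forms of `V` separate less than `(N + 1) (m + 2 - N)` generic points. -/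
theorem sepX_low (hINX : StINX) {M n m D N : ℕ} {E : Type} [Field E] [Algebra ℂ E]
    {x : Fin (M + 2) → E} (h : LowDegree n m D x) (hM : 1 ≤ M) (hm : 7 * N + 4 ≤ m)
    (hN : (M + 1) * N < m + M + 2) (hD : D + N ≤ m + 2) {z : Fin n → E}
    {e : Fin n → Derivation ℂ E E} (hz : IsTranscendenceBasis ℂ z)
    (he : ∀ i j, e i (z j) = if i = j then 1 else 0) (BX : Place ℂ E → Prop) :
    SepX z BX ((N + 1) * (m + 2 - N)) := by
  classical
  intro Ω _ _ _ A hA c hc σ₀ hσ₀
  by_contra hne
  obtain ⟨ω₀, hω⟩ := h.forms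
  have hcE : CharZero E := charZero_of_injective_algebraMap (algebraMap ℂ E).injective
  have h0 : ω₀ e ≠ 0 := by
    intro h0
    obtain ⟨D', hD'⟩ := hω.ne
    apply hD'
    have h1 := form_coord hz he hω.pl
    rw [← h1, h0]
    simp [trForm]
  refine hINX M n m N D E Ω x ω₀ hM hm hN hD h.one h.gen h.dim h.cut hω
    (A.filter fun σ => c σ ≠ 0) (fun σ => c σ * σ (ω₀ e))
    ⟨σ₀, Finset.mem_filter.2 ⟨hσ₀, hne⟩⟩ (fun σ hσ => ?_)
    (lt_of_le_of_lt (Finset.card_filter_le _ _) hA) fun P hP => ?_
  · exact mul_ne_zero (Finset.mem_filter.1 hσ).2 ((map_ne_zero_iff σ σ.toRingHom.injective).2 h0)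
  · have h1 := hω.reg P hP
    have h2 := form_coord hz he h1.1
    have h3 := hc (aeval x P * ω₀ e) fun Q hQ => by
      rw [h2]
      exact ⟨fun D' hD' => h1.2 Q hQ D' fun i => Pool.Agent.TH466.QG.derReg_of_log (hD' i),
        fun _ => h1.2 Q hQ⟩
    rw [Finset.sum_filter]
    refine Eq.trans (Finset.sum_congr rfl fun σ _ => ?_) h3
    rw [map_mul]
    split_ifs with h4
    · ring
    · push Not at h4
      rw [h4]
      ring

end Pool.Agent.N162.GP
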